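import Mathlib
import Pool.Agent.H59.SD4

set_option autoImplicit false

namespace Pool.Agent.Results.MP_ba46be_co.NearHalf

/-- A nonempty `A ⊆ F_2^n` of density at least `1/2 - ε` has `A + A` containing a linear subspace
of codimension at most `90000 ε² n + 2`. -/
theorem result : ∀ n : ℕ, ∀ ε : ℝ, 0 < ε → ∀ A : Finset (Fin n → ZMod 2), A.Nonempty →
    (1 / 2 - ε) * (2 : ℝ) ^ n ≤ (A.card : ℝ) →
      ∃ V : Submodule (ZMod 2) (Fin n → ZMod 2),
        (∀ v ∈ V, ∃ a ∈ A, ∃ b ∈ A, a + b = v) ∧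
        (n : ℝ) - (Module.finrank (ZMod 2) V : ℝ) ≤ 90000 * (ε ^ 2 * n) + 2 := by
  intro n ε hε A hA h
  obtain ⟨V, h1, h2⟩ := Pool.Agent.H59.SD.quad n ε hε A hA h
  exact ⟨V, fun v hv => Finset.mem_add.1 (h1 v hv), h2⟩

end Pool.Agent.Results.MP_ba46be_co.NearHalf
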